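import Mathlib
import Pool.Agent.R833.HO8

/-!
# The Shi arrangement is free of order `m ≥ 3` exactly when `l = 2`

The definitions are in `Pool/Agent/R833/HO1.lean` (`dlist`, `DiffOp`, `Dm`) and
`Pool/Agent/R833/HO5.lean` (`shi`).
-/

set_option autoImplicit false

namespace Pool.Agent.Results.MP_5ef5ec_co.ShiHigherFree

open MvPolynomial Pool.Agent.R833.HO

/-- **Answer to question Q1.** Let `K` be a field of characteristic zero, `m ≥ 3` and `l ≥ 2`. The
module `Dm m (shi K l)` of differential operators, homogeneous of order `m`, which preserve the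
ideal generated by the defining polynomial of `Shi_l`, is free over the polynomial ring
if and only if `l = 2`. -/
theorem result {K : Type*} [Field K] [CharZero K] (m l : ℕ) (hm : 3 ≤ m) (hl : 2 ≤ l) :
    Module.Free (MvPolynomial (Fin (l + 1)) K) (Dm m (shi K l)) ↔ l = 2 :=
  shi_free_iff m l hm hl

end Pool.Agent.Results.MP_5ef5ec_co.ShiHigherFree
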